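import Pool.Agent.Helper61.P3.St5

set_option autoImplicit false

/-!
# Project P3 (MP_cb927e_an): module EV3 (few and many chords together)
-/

open MeasureTheory Set Filter Topology
open scoped ENNReal RealInnerProductSpace

namespace Pool.Agent.Helper7.P3

open Pool.Agent.Helper61.P3 Pool.Agent.Helper20.RG Pool.Agent.Helper20.EQ
open Pool.Agent.Helper68.LM (Pl BB Bd Av HL ft fm DQ)
open Pool.Agent.Helper68.EP (elt GapP)

theorem ev3_half {a b : ℝ≥0∞} (h : 1 ≤ a + b) : ENNReal.ofReal (1 / 2) ≤ a ∨ ENNReal.ofReal (1 / 2) ≤ b := by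
  by_contra hc
  push Not at hc
  have h1 : a + b < ENNReal.ofReal (1 / 2) + ENNReal.ofReal (1 / 2) := ENNReal.add_lt_add hc.1 hc.2
  rw [← ENNReal.ofReal_add (by norm_num) (by norm_num)] at h1
  norm_num at h1
  exact absurd h (not_le.2 h1)

/-- module EV3 -/
theorem hEV3 (hHTS : Pool.Agent.Helper61.P3.StHTS) (hFEW : Pool.Agent.Helper61.P3.StFEW)
    (hMNY : Pool.Agent.Helper61.P3.StMNY) : Pool.Agent.Helper61.P3.StEV3 := by
  intro φ τ A c hG hA hGP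
  obtain ⟨κ, hκ, C₁, hC₁, hM⟩ := hMNY φ τ A c hG hA hGP
  obtain ⟨C₂, hC₂, hF⟩ := hFEW φ τ A c hG hA hGP κ hκ
  refine ⟨C₁ + C₂, by linarith, fun R₀ f hR hf hf0 => ?_⟩
  have hM' := hM R₀ f (by linarith) hf hf0
  have hF' := hF R₀ f (by linarith) hf hf0
  have hsub : ∀ l : ℤ, {x | Gd R₀ l f x ∧ ∃ k : ℤ,
        ENNReal.ofReal ((2 : ℝ) ^ l) ≤ ∑' u : ℕ, (if 2 ≤ u then Ht c φ τ u k (fh l f) x else 0)} ⊆
      {x | Gd R₀ l f x ∧ ∃ k : ℤ,
        ENNReal.ofReal (1 / 2) ≤ ∑' u : ℕ, (if 2 ≤ u then HtF c φ τ κ u k l f x else 0)} ∪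
      {x | Gd R₀ l f x ∧ ∃ k : ℤ,
        ENNReal.ofReal (1 / 2) ≤ ∑' u : ℕ, (if 2 ≤ u then HtM c φ τ κ u k l f x else 0)} := by
    rintro l x ⟨hGd, k, hk⟩
    have h1 : ∑' u : ℕ, (if 2 ≤ u then Ht c φ τ u k (fh l f) x else 0) ≤
        ENNReal.ofReal ((2 : ℝ) ^ l) *
          (∑' u : ℕ, (if 2 ≤ u then HtF c φ τ κ u k l f x else 0) +
            ∑' u : ℕ, (if 2 ≤ u then HtM c φ τ κ u k l f x else 0)) := by
      rw [← ENNReal.tsum_add, ← ENNReal.tsum_mul_left]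
      refine ENNReal.tsum_le_tsum fun u => ?_
      split_ifs with hu
      · exact hHTS φ τ c hG κ u k l f x hf hf0
      · simp
    have h2 : ENNReal.ofReal ((2 : ℝ) ^ l) * 1 ≤ ENNReal.ofReal ((2 : ℝ) ^ l) *
          (∑' u : ℕ, (if 2 ≤ u then HtF c φ τ κ u k l f x else 0) +
            ∑' u : ℕ, (if 2 ≤ u then HtM c φ τ κ u k l f x else 0)) := by
      rw [mul_one]; exact hk.trans h1
    have hpos : ENNReal.ofReal ((2 : ℝ) ^ l) ≠ 0 := by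
      have : (0 : ℝ) < (2 : ℝ) ^ l := by positivity
      simpa using this
    have h3 := (ENNReal.mul_le_mul_iff_right hpos ENNReal.ofReal_ne_top).1 h2
    rcases ev3_half h3 with h4 | h4
    · exact Or.inl ⟨hGd, k, h4⟩
    · exact Or.inr ⟨hGd, k, h4⟩
  calc ∑' l : ℤ, ENNReal.ofReal ((2 : ℝ) ^ (3 * l)) * volume {x | Gd R₀ l f x ∧ ∃ k : ℤ,
        ENNReal.ofReal ((2 : ℝ) ^ l) ≤ ∑' u : ℕ, (if 2 ≤ u then Ht c φ τ u k (fh l f) x else 0)}
      ≤ ∑' l : ℤ, (ENNReal.ofReal ((2 : ℝ) ^ (3 * l)) * volume {x | Gd R₀ l f x ∧ ∃ k : ℤ,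
        ENNReal.ofReal (1 / 2) ≤ ∑' u : ℕ, (if 2 ≤ u then HtF c φ τ κ u k l f x else 0)} +
        ENNReal.ofReal ((2 : ℝ) ^ (3 * l)) * volume {x | Gd R₀ l f x ∧ ∃ k : ℤ,
        ENNReal.ofReal (1 / 2) ≤ ∑' u : ℕ, (if 2 ≤ u then HtM c φ τ κ u k l f x else 0)}) := by
        refine ENNReal.tsum_le_tsum fun l => ?_
        rw [← mul_add]
        gcongr
        exact (measure_mono (hsub l)).trans (measure_union_le _ _)
    _ ≤ (ENNReal.ofReal C₂ * ∫⁻ x, ENNReal.ofReal (f x) ^ (3 : ℝ)) +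
        (ENNReal.ofReal C₁ * ∫⁻ x, ENNReal.ofReal (f x) ^ (3 : ℝ)) := by
        rw [ENNReal.tsum_add]
        exact add_le_add hF' hM'
    _ = _ := by
        rw [← add_mul, ← ENNReal.ofReal_add (by linarith) (by linarith), add_comm C₂ C₁]

end Pool.Agent.Helper7.P3
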