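import Pool.Agent.Helper61.P3.St5
import Pool.Agent.Helper24.EQ.M_MAQ

set_option autoImplicit false

/-!
# Project P3 (MP_cb927e_an): module MA3
-/

open MeasureTheory Set Filter Topology
open scoped ENNReal RealInnerProductSpace

namespace Pool.Agent.Helper7.P3

open Pool.Agent.Helper61.P3 Pool.Agent.Helper20.RG Pool.Agent.Helper20.EQ
open Pool.Agent.Helper68.LM (Pl BB Bd Av HL ft fm DQ)
open Pool.Agent.Helper68.EP (elt GapP)
open Pool.Agent.Helper61.Lacunary (ConditionG LpBounded)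

theorem hMA3 (hCOV : Pool.Agent.Helper20.RG.StCOV) (hCPP : Pool.Agent.Helper68.EP.StCPP)
    (hCR3 : Pool.Agent.Helper61.P3.StCR3) (hRES : Pool.Agent.Helper20.RG.StRES)
    (hFIN : Pool.Agent.Helper20.RG.StFIN) : Pool.Agent.Helper61.P3.StMA3 := by
  intro Ω hO hC hB h0 hG
  have hp : (1 : ℝ) < 3 := by norm_num
  have hne : Ω.Nonempty := ⟨0, h0⟩
  obtain ⟨n, P, u, v, ℓ, φ, τ, hPiece, hcov⟩ := hCOV Ω hO hC hB hne
  refine hFIN Ω 3 n P u v ℓ φ τ hB hp hPiece hcov ?_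
  intro i hi
  have hpi := hPiece i hi
  refine hRES Ω (P i) (u i) (v i) (ℓ i) (φ i) (τ i) 3 hpi hp.le ?_
  intro c
  obtain ⟨A, hA, hgap⟩ := hCPP Ω 3 hO hC hB hne (by norm_num) hG (P i) (u i) (v i) (ℓ i) (φ i)
    (τ i) hpi
  have hgr : Graph (fun t => φ i (ℓ i * t) / ℓ i) (fun t => τ i (ℓ i * t)) :=
    Pool.Agent.Helper24.EQ.graph_scale_MAQ hpi.graph hpi.pos
  obtain ⟨C, hC', hkey⟩ := hCR3 _ _ A c hgr hA hgap
  haveI : IsFiniteMeasure (arc c (fun t => φ i (ℓ i * t) / ℓ i)) := by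
    unfold arc
    infer_instance
  exact Pool.Agent.Helper79.RG.co2_gen (arc c (fun t => φ i (ℓ i * t) / ℓ i)) 3 C
    (by norm_num) hC' hkey

end Pool.Agent.Helper7.P3
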