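import Pool.Agent.Helper61.P3.St2

/-!
# Project P3 (MP_cb927e_an): module WIA, one class, one window, all scales, in terms of a second family
-/

set_option autoImplicit false

open MeasureTheory Set Filter Topology
open scoped ENNReal RealInnerProductSpace

namespace Pool.Agent.Helper7.P3

open Pool.Agent.Helper61.P3 Pool.Agent.Helper20.RG Pool.Agent.Helper20.EQ
open Pool.Agent.Helper68.LM (Pl BB Bd Av HL ft fm DQ)
open Pool.Agent.Helper68.EP (elt GapP)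

/-- the squares around a nearby point -/
theorem sq_sub (z x : Pl) (L : ℝ) (hL : 0 < L) (hx : x ∈ Sq z (L / 2)) :
    Sq z (12 * L) ⊆ Sq x (24 * L) := by
  rintro y ⟨h0, h1⟩
  obtain ⟨g0, g1⟩ := hx
  rw [abs_le] at h0 h1 g0 g1
  refine ⟨abs_le.2 ⟨?_, ?_⟩, abs_le.2 ⟨?_, ?_⟩⟩ <;> linarith [h0.1, h0.2, h1.1, h1.2, g0.1, g0.2, g1.1, g1.2]

/-- the sum over the squares, one scale -/
theorem sumsq (hOVL : StOVL) (N N' : ℕ) (L₂ r D D₂ : ℝ) (Z' S : ℕ → Set Pl) (R : Set Pl) (hL : 0 < L₂)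
    (hLr : L₂ ≤ r) (hD : 0 < D) (hD₂ : 0 < D₂) (hS : ∀ j < N', MeasurableSet (S j))
    (h1 : ∀ x ∈ R, Dens Z' N x (24 * L₂) D)
    (h2 : ∀ x ∈ R, ENNReal.ofReal (D₂ / 16 * r ^ 2) ≤ ∑ j ∈ Finset.range N', volume (S j ∩ Sq x r)) :
    (∑' n : ℤ × ℤ, {n : ℤ × ℤ | (R ∩ Sq (zg L₂ n) (L₂ / 2)).Nonempty}.indicator
      (fun n => ∑ j ∈ Finset.range N, volume (Z' j ∩ Sq (zg L₂ n) (12 * L₂))) n) ≤
      ENNReal.ofReal (589824 * D / D₂) * ∑ j ∈ Finset.range N', volume (S j) := by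
  have h3 := hOVL.2.2.2 N' L₂ r (D₂ / 16) S R hL hLr (by positivity) hS h2
  have h4 : ∀ n : ℤ × ℤ, {n : ℤ × ℤ | (R ∩ Sq (zg L₂ n) (L₂ / 2)).Nonempty}.indicator
      (fun n => ∑ j ∈ Finset.range N, volume (Z' j ∩ Sq (zg L₂ n) (12 * L₂))) n ≤
      ENNReal.ofReal (576 * D) * {n : ℤ × ℤ | (R ∩ Sq (zg L₂ n) (L₂ / 2)).Nonempty}.indicator
        (fun _ => ENNReal.ofReal (L₂ ^ 2)) n := by
    intro n
    by_cases hn : n ∈ {n : ℤ × ℤ | (R ∩ Sq (zg L₂ n) (L₂ / 2)).Nonempty}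
    · rw [Set.indicator_of_mem hn, Set.indicator_of_mem hn]
      obtain ⟨x, hxR, hxS⟩ := hn
      calc ∑ j ∈ Finset.range N, volume (Z' j ∩ Sq (zg L₂ n) (12 * L₂))
          ≤ ∑ j ∈ Finset.range N, volume (Z' j ∩ Sq x (24 * L₂)) := by
            apply Finset.sum_le_sum
            intro j _
            exact measure_mono (Set.inter_subset_inter_right _ (sq_sub _ _ _ hL hxS))
        _ ≤ ENNReal.ofReal (D * (24 * L₂) ^ 2) := h1 x hxR
        _ = ENNReal.ofReal (576 * D) * ENNReal.ofReal (L₂ ^ 2) := by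
            rw [← ENNReal.ofReal_mul (by positivity)]
            congr 1
            ring
    · rw [Set.indicator_of_notMem hn]
      exact zero_le
  calc _ ≤ ∑' n : ℤ × ℤ, ENNReal.ofReal (576 * D) *
        {n : ℤ × ℤ | (R ∩ Sq (zg L₂ n) (L₂ / 2)).Nonempty}.indicator
          (fun _ => ENNReal.ofReal (L₂ ^ 2)) n := ENNReal.tsum_le_tsum h4
    _ = ENNReal.ofReal (576 * D) * ∑' n : ℤ × ℤ,
        {n : ℤ × ℤ | (R ∩ Sq (zg L₂ n) (L₂ / 2)).Nonempty}.indicator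
          (fun _ => ENNReal.ofReal (L₂ ^ 2)) n := ENNReal.tsum_mul_left
    _ ≤ ENNReal.ofReal (576 * D) * (ENNReal.ofReal (64 / (D₂ / 16)) *
        ∑ j ∈ Finset.range N', volume (S j)) := by gcongr
    _ = ENNReal.ofReal (589824 * D / D₂) * ∑ j ∈ Finset.range N', volume (S j) := by
        rw [← mul_assoc, ← ENNReal.ofReal_mul (by positivity)]
        congr 2
        field_simp
        norm_num

theorem hWIA (hWIK : Pool.Agent.Helper61.P3.StWIK) (hOVL : Pool.Agent.Helper61.P3.StOVL)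
    (hENS : Pool.Agent.Helper61.P3.StENS) : Pool.Agent.Helper61.P3.StWIA := by
  intro φ τ A c hG hA hGap
  obtain ⟨Cw, hCw, hW⟩ := hWIK φ τ A c hG hA hGap
  obtain ⟨Ce, hCe, hEs⟩ := hENS φ τ A c hG hA hGap
  have hCwCe : 1 ≤ Cw * Ce := one_le_mul_of_one_le_of_one_le hCw hCe
  refine ⟨589824 * (Cw * Ce), by linarith, ?_⟩
  intro u q v₀ N' η D m D₂ g R S hu huq hv₀ hv₀u hqη hη1 hg hg01 hm hD hDm hD₂ hnn hSm hR
  have hη : 0 < η := lt_of_lt_of_le (by positivity) hqη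
  have hm0 : 0 < m := by linarith
  have hq1 : 1 ≤ q := by omega
  -- one scale
  have hk : ∀ k : ℤ, volume (R k) ≤
      ENNReal.ofReal (589824 * (Cw * Ce) * D ^ 2 * (2 : ℝ) ^ v₀ / (m ^ 3 * D₂)) *
        ∑ j ∈ Finset.range N', volume (S k j) +
      ENNReal.ofReal (Cw * D ^ 2 / m ^ 4) * EC c φ τ u q v₀ η (m / (125 * D)) k g := by
    intro k
    have h1 := hW u q v₀ η D m k g (R k) hu huq hv₀ hv₀u hqη hη1 hg hg01 hm hD hDm hnn
      (fun x hx => ⟨(hR k x hx).1, (hR k x hx).2.1, (hR k x hx).2.2.1⟩)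
    have hL : (0 : ℝ) < (2 : ℝ) ^ (k + 28 * (q : ℤ)) := by positivity
    have h2 := sumsq hOVL (2 ^ u) N' ((2 : ℝ) ^ (k + 28 * (q : ℤ))) (4 * (2 : ℝ) ^ (k + 32 * (q : ℤ))) D D₂
      (Ez c φ τ u (32 * q) η k g) (S k) (R k) hL
      (by
        have h3 : (2 : ℝ) ^ (k + 28 * (q : ℤ)) ≤ (2 : ℝ) ^ (k + 32 * (q : ℤ)) :=
          zpow_le_zpow_right₀ (by norm_num) (by omega)
        have h4 : (0 : ℝ) < (2 : ℝ) ^ (k + 32 * (q : ℤ)) := by positivity
        linarith)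
      hD hD₂ (hSm k) (fun x hx => (hR k x hx).2.2.2.1)
      (by
        intro x hx
        have h3 := (hR k x hx).2.2.2.2
        refine le_trans (le_of_eq ?_) h3
        congr 1
        have h4 : (4 : ℝ) ^ (k + 32 * (q : ℤ)) = ((2 : ℝ) ^ (k + 32 * (q : ℤ))) ^ 2 := by
          rw [← zpow_natCast, ← zpow_mul, show (4 : ℝ) = (2 : ℝ) ^ (2 : ℤ) by norm_num, ← zpow_mul]
          congr 1
          push_cast
          ring
        rw [h4]
        ring)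
    refine h1.trans (add_le_add ?_ le_rfl)
    calc _ ≤ ENNReal.ofReal (Cw * D / m ^ 3 * (2 : ℝ) ^ v₀) *
          (ENNReal.ofReal (589824 * D / D₂) * ∑ j ∈ Finset.range N', volume (S k j)) := by
          gcongr
      _ = ENNReal.ofReal (589824 * Cw * D ^ 2 * (2 : ℝ) ^ v₀ / (m ^ 3 * D₂)) *
          ∑ j ∈ Finset.range N', volume (S k j) := by
          rw [← mul_assoc, ← ENNReal.ofReal_mul (by positivity)]
          congr 2
          field_simp
      _ ≤ _ := by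
          gcongr
          nlinarith
  have hE := hEs u q v₀ η (m / (125 * D)) g hu hq1 hv₀ hη hη1 (by positivity) hg hg01
  calc ∑' k : ℤ, volume (R k) ≤ ∑' k : ℤ,
      (ENNReal.ofReal (589824 * (Cw * Ce) * D ^ 2 * (2 : ℝ) ^ v₀ / (m ^ 3 * D₂)) *
        ∑ j ∈ Finset.range N', volume (S k j) +
      ENNReal.ofReal (Cw * D ^ 2 / m ^ 4) * EC c φ τ u q v₀ η (m / (125 * D)) k g) :=
        ENNReal.tsum_le_tsum hk
    _ = ENNReal.ofReal (589824 * (Cw * Ce) * D ^ 2 * (2 : ℝ) ^ v₀ / (m ^ 3 * D₂)) *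
        (∑' k : ℤ, ∑ j ∈ Finset.range N', volume (S k j)) +
      ENNReal.ofReal (Cw * D ^ 2 / m ^ 4) * ∑' k : ℤ, EC c φ τ u q v₀ η (m / (125 * D)) k g := by
        rw [ENNReal.tsum_add, ENNReal.tsum_mul_left, ENNReal.tsum_mul_left]
    _ ≤ ENNReal.ofReal (589824 * (Cw * Ce) * D ^ 2 * (2 : ℝ) ^ v₀ / (m ^ 3 * D₂)) *
        (∑' k : ℤ, ∑ j ∈ Finset.range N', volume (S k j)) +
      ENNReal.ofReal (Cw * D ^ 2 / m ^ 4) *
        (ENNReal.ofReal (Ce * (m / (125 * D)) / η ^ 2) * EX τ u v₀ g) := by gcongr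
    _ ≤ _ := by
        refine add_le_add le_rfl ?_
        rw [← mul_assoc, ← ENNReal.ofReal_mul (by positivity)]
        gcongr
        have h5 : Cw * D ^ 2 / m ^ 4 * (Ce * (m / (125 * D)) / η ^ 2) =
            Cw * Ce * D / (m ^ 3 * η ^ 2) / 125 := by
          field_simp
        have h6 : 589824 * (Cw * Ce) * D / (m ^ 3 * η ^ 2) = 589824 * (Cw * Ce * D / (m ^ 3 * η ^ 2)) := by
          ring
        rw [h5, h6]
        have h7 : 0 ≤ Cw * Ce * D / (m ^ 3 * η ^ 2) := by positivity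
        linarith

end Pool.Agent.Helper7.P3
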